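import Mathlib

/-!
# The discriminant and the Floquet matrix
-/

open Matrix Polynomial

namespace Pool.Agent.Q235.FL

noncomputable section

/-- the product of the transfer matrices -/
def mon {R : Type*} [CommRing R] (v : ℕ → R) (x : R) : ℕ → Matrix (Fin 2) (Fin 2) R
  | 0 => 1
  | n + 1 => !![x - v n, -1; 1, 0] * mon v x n

lemma mon_det {R : Type*} [CommRing R] (v : ℕ → R) (x : R) (n : ℕ) : (mon v x n).det = 1 := by
  induction n with
  | zero => simp [mon]
  | succ n ih => rw [mon, det_mul, ih, mul_one, det_fin_two_of]; ring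

lemma mulE {K : Type*} [CommRing K] (a b c d : K) (M : Matrix (Fin 2) (Fin 2) K) :
    !![a, b; c, d] * M = !![a * M 0 0 + b * M 1 0, a * M 0 1 + b * M 1 1;
      c * M 0 0 + d * M 1 0, c * M 0 1 + d * M 1 1] := by
  rw [Matrix.eta_fin_two M, Matrix.mul_fin_two]
  rfl

lemma mon_rec {K : Type*} [CommRing K] (v : ℕ → K) (x : K) (n : ℕ) :
    mon v x (n + 1) 0 0 = (x - v n) * mon v x n 0 0 - mon v x n 1 0 ∧
    mon v x (n + 1) 0 1 = (x - v n) * mon v x n 0 1 - mon v x n 1 1 ∧
    mon v x (n + 1) 1 0 = mon v x n 0 0 ∧ mon v x (n + 1) 1 1 = mon v x n 0 1 := by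
  rw [mon, mulE]
  refine ⟨?_, ?_, ?_, ?_⟩
  · show (x - v n) * _ + -1 * _ = _
    ring
  · show (x - v n) * _ + -1 * _ = _
    ring
  · show 1 * mon v x n 0 0 + 0 * mon v x n 1 0 = _
    ring
  · show 1 * mon v x n 0 1 + 0 * mon v x n 1 1 = _
    ring

/-- the Floquet matrix -/
def Lz {R : Type*} [CommRing R] (q : ℕ) (V : Fin q → R) (z z' : R) : Matrix (Fin q) (Fin q) R :=
  fun i j => (if (i : ℕ) = j then V i else 0) + (if (i : ℕ) + 1 = j then 1 else 0) +
    (if (j : ℕ) + 1 = i then 1 else 0) + (if (i : ℕ) = 0 ∧ (j : ℕ) + 1 = q then z' else 0) +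
    (if (i : ℕ) + 1 = q ∧ (j : ℕ) = 0 then z else 0)

lemma Lz_mulVec {R : Type*} [CommRing R] (q : ℕ) (hq : 3 ≤ q) (v : ℕ → R) (z z' : R) (g : ℕ → R)
    (i : Fin q) : (Lz q (fun i => v i) z z' *ᵥ fun j => g j) i =
      v i * g i + (if (i : ℕ) + 1 = q then z * g 0 else g (i + 1)) +
        (if (i : ℕ) = 0 then z' * g (q - 1) else g (i - 1)) := by
  have hi := i.isLt
  have key : (Lz q (fun i => v i) z z' *ᵥ fun j => g j) i = ∑ j ∈ Finset.range q,
      ((if (i : ℕ) = j then v i else 0) + (if (i : ℕ) + 1 = j then 1 else 0) +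
      (if j + 1 = i then 1 else 0) + (if (i : ℕ) = 0 ∧ j + 1 = q then z' else 0) +
      (if (i : ℕ) + 1 = q ∧ j = 0 then z else 0)) * g j := by
    rw [Finset.sum_range]
    rfl
  rw [key]
  simp only [add_mul, Finset.sum_add_distrib, ite_mul, zero_mul, one_mul]
  have e1 : ∑ j ∈ Finset.range q, (if (i : ℕ) = j then v i * g j else 0) = v i * g i := by
    rw [Finset.sum_ite_eq, if_pos (Finset.mem_range.2 hi)]
  have e2 : ∑ j ∈ Finset.range q, (if (i : ℕ) + 1 = j then g j else 0) =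
      if (i : ℕ) + 1 < q then g (i + 1) else 0 := by
    rw [Finset.sum_ite_eq]
    simp only [Finset.mem_range]
  have e3 : ∑ j ∈ Finset.range q, (if j + 1 = (i : ℕ) then g j else 0) =
      if (i : ℕ) = 0 then 0 else g (i - 1) := by
    by_cases h : (i : ℕ) = 0
    · rw [if_pos h]
      refine Finset.sum_eq_zero fun j _ => ?_
      rw [if_neg (by omega)]
    · rw [if_neg h, Finset.sum_eq_single ((i : ℕ) - 1)]
      · rw [if_pos (by omega)]
      · intro j _ hj
        rw [if_neg (by omega)]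
      · intro hj
        exact absurd (Finset.mem_range.2 (by omega)) hj
  have e4 : ∑ j ∈ Finset.range q, (if (i : ℕ) = 0 ∧ j + 1 = q then z' * g j else 0) =
      if (i : ℕ) = 0 then z' * g (q - 1) else 0 := by
    by_cases h : (i : ℕ) = 0
    · rw [if_pos h, Finset.sum_eq_single (q - 1)]
      · rw [if_pos ⟨h, by omega⟩]
      · intro j _ hj
        rw [if_neg (by omega)]
      · intro hj
        exact absurd (Finset.mem_range.2 (by omega)) hj
    · rw [if_neg h]
      refine Finset.sum_eq_zero fun j _ => ?_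
      rw [if_neg (fun h' => h h'.1)]
  have e5 : ∑ j ∈ Finset.range q, (if (i : ℕ) + 1 = q ∧ j = 0 then z * g j else 0) =
      if (i : ℕ) + 1 = q then z * g 0 else 0 := by
    by_cases h : (i : ℕ) + 1 = q
    · rw [if_pos h, Finset.sum_eq_single 0]
      · rw [if_pos ⟨h, rfl⟩]
      · intro j _ hj
        rw [if_neg (by omega)]
      · intro hj
        exact absurd (Finset.mem_range.2 (by omega)) hj
    · rw [if_neg h]
      refine Finset.sum_eq_zero fun j _ => ?_
      rw [if_neg (fun h' => h h'.1)]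
  rw [e1, e2, e3, e4, e5]
  split_ifs <;> first | (exfalso; omega) | ring

/-- a root of the discriminant equation is an eigenvalue -/
lemma eig {q : ℕ} (hq : 3 ≤ q) (v : ℕ → ℂ) {z : ℂ} (hz : z ≠ 0) {x : ℂ}
    (h : (mon v x q).trace = z + z⁻¹) :
    (Lz q (fun i => v i) z z⁻¹).charpoly.eval x = 0 := by
  -- an eigenvector of the monodromy matrix
  have hdet : (mon v x q - scalar (Fin 2) z).det = 0 := by
    have h1 := mon_det v x q
    rw [det_fin_two] at h1 ⊢
    rw [trace_fin_two] at h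
    simp only [Matrix.sub_apply, scalar_apply, diagonal_apply_eq, Matrix.diagonal_apply_ne _
      (show (0 : Fin 2) ≠ 1 by decide), Matrix.diagonal_apply_ne _
      (show (1 : Fin 2) ≠ 0 by decide), sub_zero]
    have h2 : z * z⁻¹ = 1 := mul_inv_cancel₀ hz
    linear_combination h1 - z * h - h2
  obtain ⟨x0, hx0, hx⟩ := exists_mulVec_eq_zero_iff.2 hdet
  have hx' : mon v x q *ᵥ x0 = z • x0 := by
    rw [sub_mulVec, sub_eq_zero] at hx
    rw [hx]
    funext i
    rw [scalar_apply, mulVec_diagonal]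
    rfl
  obtain ⟨X, hX⟩ : ∃ X : ℕ → Fin 2 → ℂ, X = fun n => mon v x n *ᵥ x0 := ⟨_, rfl⟩
  have hX0 : X 0 = x0 := by rw [hX]; simp [mon]
  have hXq : X q = z • x0 := by rw [hX]; exact hx'
  have hXs : ∀ n, X (n + 1) 0 = (x - v n) * X n 0 - X n 1 ∧ X (n + 1) 1 = X n 0 := by
    intro n
    have : X (n + 1) = !![x - v n, -1; 1, 0] *ᵥ X n := by
      rw [hX]
      simp only [mon]
      rw [← mulVec_mulVec]
    rw [this]
    constructor
    · simp [mulVec, dotProduct, Fin.sum_univ_two]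
      ring
    · simp [mulVec, dotProduct, Fin.sum_univ_two]
  have hq1 : q - 1 + 1 = q := by omega
  have hlast : X 0 1 = z⁻¹ * X (q - 1) 0 := by
    have h1 := (hXs (q - 1)).2
    rw [hq1, hXq] at h1
    rw [← h1, hX0]
    show x0 1 = z⁻¹ * (z * x0 1)
    rw [← mul_assoc, inv_mul_cancel₀ hz, one_mul]
  have hLf : Lz q (fun i => v i) z z⁻¹ *ᵥ (fun j => X j 0) = x • fun j : Fin q => X j 0 := by
    funext i
    rw [Lz_mulVec q hq v z z⁻¹ (fun n => X n 0) i]
    show _ = x * X i 0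
    have hi := i.isLt
    have h1 : (if (i : ℕ) + 1 = q then z * X 0 0 else X (i + 1) 0) = X (i + 1) 0 := by
      by_cases h : (i : ℕ) + 1 = q
      · rw [if_pos h, h, hXq, hX0]
        rfl
      · rw [if_neg h]
    have h2 : (if (i : ℕ) = 0 then z⁻¹ * X (q - 1) 0 else X (i - 1) 0) = X i 1 := by
      by_cases h : (i : ℕ) = 0
      · rw [if_pos h, h, hlast]
      · rw [if_neg h]
        have := (hXs (i - 1)).2
        rw [show (i : ℕ) - 1 + 1 = i by omega] at this
        exact this.symm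
    rw [h1, h2, (hXs i).1]
    ring
  have hne : (fun j : Fin q => X j 0) ≠ 0 := by
    intro h0
    apply hx0
    have h1 : ∀ n, n < q → X n 0 = 0 := fun n hn => congrFun h0 ⟨n, hn⟩
    have h2 := h1 0 (by omega)
    have h3 := h1 (q - 1) (by omega)
    rw [h3, mul_zero] at hlast
    rw [← hX0]
    funext i
    fin_cases i
    · exact h2
    · exact hlast
  rw [eval_charpoly]
  refine exists_mulVec_eq_zero_iff.1 ⟨_, hne, ?_⟩
  rw [sub_mulVec, hLf, sub_eq_zero]
  funext i
  rw [scalar_apply, mulVec_diagonal]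
  rfl

/-- the trace of the monodromy matrix of the zero potential -/
lemma mon_zero {K : Type*} [Field K] {w : K} (hw : w ≠ 0) (n : ℕ) :
    (mon (fun _ => 0) (w + w⁻¹) n).trace = w ^ n + (w⁻¹) ^ n := by
  have hww : w * w⁻¹ = 1 := mul_inv_cancel₀ hw
  -- recursion of the traces
  have hrec : ∀ n, (mon (fun _ => (0 : K)) (w + w⁻¹) (n + 2)).trace =
      (w + w⁻¹) * (mon (fun _ => 0) (w + w⁻¹) (n + 1)).trace -
        (mon (fun _ => 0) (w + w⁻¹) n).trace := by
    intro n
    obtain ⟨a1, -, -, a4⟩ := mon_rec (fun _ => (0 : K)) (w + w⁻¹) (n + 1)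
    obtain ⟨b1, b2, b3, b4⟩ := mon_rec (fun _ => (0 : K)) (w + w⁻¹) n
    rw [trace_fin_two, trace_fin_two, trace_fin_two, a1, a4, b1, b2, b3, b4]
    ring
  have h0 : (mon (fun _ => (0 : K)) (w + w⁻¹) 0).trace = w ^ 0 + (w⁻¹) ^ 0 := by
    simp [mon]
    norm_num
  have h1' : (mon (fun _ => (0 : K)) (w + w⁻¹) 1).trace = w ^ 1 + (w⁻¹) ^ 1 := by
    simp [mon, trace_fin_two]
  have : ∀ n, (mon (fun _ => (0 : K)) (w + w⁻¹) n).trace = w ^ n + (w⁻¹) ^ n ∧
      (mon (fun _ => (0 : K)) (w + w⁻¹) (n + 1)).trace = w ^ (n + 1) + (w⁻¹) ^ (n + 1) := by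
    intro n
    induction n with
    | zero => exact ⟨h0, h1'⟩
    | succ n ih =>
      refine ⟨ih.2, ?_⟩
      rw [hrec, ih.1, ih.2]
      linear_combination (w ^ n + (w⁻¹) ^ n) * hww
  exact (this n).1

/-- **Potentials with the same discriminant as the zero potential**, generic quasimomentum. -/
lemma link_gen {q : ℕ} (hq : 3 ≤ q) (v : ℕ → ℂ)
    (h : ∀ x, (mon v x q).trace = (mon (fun _ => 0) x q).trace) {z : ℂ} (hz : z ≠ 0)
    (hz2 : z ^ 2 ≠ 1) : (Lz q (fun i => v i) z z⁻¹).charpoly =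
      (Lz q (fun _ => 0) z z⁻¹).charpoly := by
  classical
  obtain ⟨w₀, hw₀⟩ : ∃ w₀ : ℂ, w₀ ^ q = z := IsAlgClosed.exists_pow_nat_eq z (by omega)
  have hζ := Complex.isPrimitiveRoot_exp q (by omega)
  obtain ⟨ζ, hζ'⟩ : ∃ ζ, ζ = Complex.exp (2 * Real.pi * Complex.I / q) := ⟨_, rfl⟩
  rw [← hζ'] at hζ
  have hw0 : w₀ ≠ 0 := by
    rintro rfl
    apply hz
    rw [← hw₀, zero_pow (by omega)]
  obtain ⟨w, hw⟩ : ∃ w : ℕ → ℂ, w = fun j => w₀ * ζ ^ j := ⟨_, rfl⟩
  have hwq : ∀ j, w j ^ q = z := by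
    intro j
    rw [hw]
    simp only
    rw [mul_pow, hw₀, ← pow_mul, mul_comm j q, pow_mul, hζ.pow_eq_one, one_pow, mul_one]
  have hwne : ∀ j, w j ≠ 0 := by
    intro j h0
    apply hz
    rw [← hwq j, h0, zero_pow (by omega)]
  have hinj : ∀ i < q, ∀ j < q, w i + (w i)⁻¹ = w j + (w j)⁻¹ → i = j := by
    intro i hi j hj hij
    have h1 : (w i - w j) * (w i * w j - 1) = 0 := by
      have h2 := hwne i
      have h3 := hwne j
      field_simp at hij
      linear_combination hij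
    rcases mul_eq_zero.1 h1 with h2 | h2
    · have h3 : w i = w j := sub_eq_zero.1 h2
      rw [hw] at h3
      simp only at h3
      exact hζ.pow_inj hi hj (mul_left_cancel₀ hw0 h3)
    · exfalso
      apply hz2
      have h3 : w i * w j = 1 := sub_eq_zero.1 h2
      calc z ^ 2 = w i ^ q * w j ^ q := by rw [hwq, hwq]; ring
        _ = 1 := by rw [← mul_pow, h3, one_pow]
  have hroot : ∀ (v : ℕ → ℂ), (∀ x, (mon v x q).trace = (mon (fun _ => 0) x q).trace) →
      ∀ j, (Lz q (fun i => v i) z z⁻¹).charpoly.eval (w j + (w j)⁻¹) = 0 := by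
    intro v hv j
    refine eig hq v hz ?_
    rw [hv, mon_zero (hwne j), inv_pow, hwq]
  obtain ⟨S, hS⟩ : ∃ S : Finset ℂ, S = (Finset.range q).image fun j => w j + (w j)⁻¹ := ⟨_, rfl⟩
  have hcard : S.card = q := by
    rw [hS, Finset.card_image_of_injOn, Finset.card_range]
    intro i hi j hj hij
    exact hinj i (by simpa using hi) j (by simpa using hj) hij
  refine Polynomial.eq_of_degree_sub_lt_of_eval_finset_eq S ?_ fun x hx => ?_
  · rw [hcard]
    have m1 := (Lz q (fun i => v i) z z⁻¹).charpoly_monic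
    have m2 := (Lz q (fun _ => (0 : ℂ)) z z⁻¹).charpoly_monic
    have d1 := (Lz q (fun i => v i) z z⁻¹).charpoly_degree_eq_dim
    have d2 := (Lz q (fun _ => (0 : ℂ)) z z⁻¹).charpoly_degree_eq_dim
    rw [Fintype.card_fin] at d1 d2
    rw [← d1]
    exact Polynomial.degree_sub_lt_left (by rw [d1, d2]) m1.ne_zero (by rw [m1, m2])
  · rw [hS, Finset.mem_image] at hx
    obtain ⟨j, -, rfl⟩ := hx
    rw [hroot v h j]
    exact (hroot (fun _ => 0) (fun _ => rfl) j).symm

lemma Lz_cont {q : ℕ} (V : Fin q → ℂ) (x : ℂ) :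
    Continuous fun p : ℂ × ℂ => (scalar (Fin q) x - Lz q V p.1 p.2).det := by
  refine Continuous.matrix_det ?_
  refine Continuous.sub continuous_const ?_
  refine continuous_matrix fun i j => ?_
  unfold Lz
  refine Continuous.add (Continuous.add continuous_const ?_) ?_
  · split_ifs
    · exact continuous_snd
    · exact continuous_const
  · split_ifs
    · exact continuous_fst
    · exact continuous_const

/-- **Potentials with the same discriminant as the zero potential.** -/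
theorem link {q : ℕ} (hq : 3 ≤ q) (v : ℕ → ℂ)
    (h : ∀ x, (mon v x q).trace = (mon (fun _ => 0) x q).trace) {z : ℂ} (hz : z ≠ 0) :
    (Lz q (fun i => v i) z z⁻¹).charpoly = (Lz q (fun _ => 0) z z⁻¹).charpoly := by
  by_cases hz2 : z ^ 2 = 1
  swap
  · exact link_gen hq v h hz hz2
  -- approximation
  obtain ⟨s, hs⟩ : ∃ s : ℕ → ℂ, s = fun n : ℕ => z * (1 + 1 / ((n : ℂ) + 1)) := ⟨_, rfl⟩
  have hs0 : ∀ n : ℕ, (0 : ℝ) < 1 + 1 / (n + 1 : ℝ) := fun n => by positivity
  have hsc : ∀ n : ℕ, (1 + 1 / ((n : ℂ) + 1)) = ((1 + 1 / (n + 1 : ℝ) : ℝ) : ℂ) := fun n => by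
    push_cast; rfl
  have hsne : ∀ n, s n ≠ 0 := by
    intro n
    rw [hs]
    simp only
    rw [hsc]
    exact mul_ne_zero hz (by exact_mod_cast (hs0 n).ne')
  have hs2 : ∀ n, s n ^ 2 ≠ 1 := by
    intro n hn
    rw [hs] at hn
    simp only at hn
    rw [hsc, mul_pow, hz2, one_mul] at hn
    have h1 : (1 + 1 / (n + 1 : ℝ)) ^ 2 = 1 := by exact_mod_cast hn
    have h2 : (0 : ℝ) < 1 / (n + 1 : ℝ) := by positivity
    nlinarith
  have hlim : Filter.Tendsto s Filter.atTop (nhds z) := by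
    have h1 : Filter.Tendsto (fun n : ℕ => ((1 + 1 / (n + 1 : ℝ) : ℝ) : ℂ)) Filter.atTop
        (nhds ((1 + 0 : ℝ) : ℂ)) :=
      (Complex.continuous_ofReal.tendsto _).comp
        (tendsto_one_div_add_atTop_nhds_zero_nat.const_add 1)
    have h2 := h1.const_mul z
    rw [add_zero, Complex.ofReal_one, mul_one] at h2
    rw [hs]
    exact h2.congr fun n => by rw [hsc]
  refine Polynomial.funext fun x => ?_
  rw [eval_charpoly, eval_charpoly]
  have hcont : ∀ V : Fin q → ℂ, Filter.Tendsto (fun n => (scalar (Fin q) x -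
      Lz q V (s n) (s n)⁻¹).det) Filter.atTop (nhds (scalar (Fin q) x - Lz q V z z⁻¹).det) := by
    intro V
    have hinv := hlim.inv₀ hz
    have h2 : Filter.Tendsto (fun n => (s n, (s n)⁻¹)) Filter.atTop (nhds (z, z⁻¹)) :=
      hlim.prodMk_nhds hinv
    have h3 := (Lz_cont V x).tendsto (z, z⁻¹)
    exact Filter.Tendsto.comp (f := fun n => (s n, (s n)⁻¹)) h3 h2
  refine tendsto_nhds_unique (hcont fun i => v i) ((hcont fun _ => 0).congr fun n => ?_)
  rw [← eval_charpoly, ← eval_charpoly, link_gen hq v h (hsne n) (hs2 n)]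

end

end Pool.Agent.Q235.FL
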