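import Mathlib

/-!
# The antisymmetric Floquet isospectral variety: definitions
-/

open Matrix

namespace Pool.Agent.Q235.FL

noncomputable section

/-- The matrix `L_V`: the potential on the diagonal, `1` at the neighbouring places and at the two
corners, `0` elsewhere. -/
def LMat {R : Type*} [CommRing R] {q : ℕ} (V : Fin q → R) : Matrix (Fin q) (Fin q) R := fun i j =>
  if i = j then V i
  else if (i : ℕ) + 1 = j ∨ (j : ℕ) + 1 = i ∨ ((i : ℕ) = 0 ∧ (j : ℕ) + 1 = q) ∨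
    ((j : ℕ) = 0 ∧ (i : ℕ) + 1 = q) then 1
  else 0

/-- `D_V(λ) = det (L_V - λ I)`, as a polynomial in `λ`. -/
def DPol {R : Type*} [CommRing R] {q : ℕ} (V : Fin q → R) : Polynomial R :=
  ((LMat V).map Polynomial.C - (Polynomial.X : Polynomial R) • (1 : Matrix (Fin q) (Fin q) _)).det

/-- The generic antisymmetric potential `U = (u_1, …, u_m, [0,] -u_m, …, -u_1)`, where
`m = ⌊q/2⌋`; the indices start at `0`. -/
def UGen (q : ℕ) : Fin q → MvPolynomial (Fin (q / 2)) ℂ := fun j =>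
  if h : (j : ℕ) < q / 2 then MvPolynomial.X ⟨j, h⟩
  else if h : q - 1 - (j : ℕ) < q / 2 then -MvPolynomial.X ⟨q - 1 - j, h⟩
  else 0

/-- `p'_k = (-1) ^ (q + k) [λ ^ (q - 2 k)] (D_U - D_0)`. -/
def pPol (q k : ℕ) : MvPolynomial (Fin (q / 2)) ℂ :=
  (-1) ^ (q + k) * (DPol (UGen q) - DPol (0 : Fin q → _)).coeff (q - 2 * k)

/-- The ideal `I' = ⟨p'_1, …, p'_m⟩`. -/
def IIdeal (q : ℕ) : Ideal (MvPolynomial (Fin (q / 2)) ℂ) :=
  Ideal.span {f | ∃ k, 1 ≤ k ∧ k ≤ q / 2 ∧ f = pPol q k}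

/-- `V(I')`. -/
def VSet (q : ℕ) : Set (Fin (q / 2) → ℂ) := {a | ∀ f ∈ IIdeal q, MvPolynomial.eval a f = 0}

/-- The evaluation `ℂ[u]/I' → ℂ` at a point of `V(I')`. -/
def evalQ {q : ℕ} (a : Fin (q / 2) → ℂ) (ha : a ∈ VSet q) :
    (MvPolynomial (Fin (q / 2)) ℂ ⧸ IIdeal q) →+* ℂ :=
  Ideal.Quotient.lift (IIdeal q) (MvPolynomial.eval a) ha

instance {q : ℕ} (a : Fin (q / 2) → ℂ) (ha : a ∈ VSet q) : (RingHom.ker (evalQ a ha)).IsPrime :=
  RingHom.ker_isPrime _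

/-- The multiplicity of a point `a` of `V(I')`: the dimension of the localization of `ℂ[u]/I'` at
the maximal ideal of `a`, the kernel of the evaluation at `a`. -/
def mult {q : ℕ} (a : Fin (q / 2) → ℂ) (ha : a ∈ VSet q) : Cardinal :=
  Module.rank ℂ (Localization.AtPrime (RingHom.ker (evalQ a ha)))

/-- Part (a): every nonzero point of `V(I')` is regular. -/
def PartA (q : ℕ) : Prop := ∀ (a : Fin (q / 2) → ℂ) (ha : a ∈ VSet q), a ≠ 0 → mult a ha = 1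

/-- Part (b): the singular nonzero points of `V(I')` form exactly one orbit under the group
generated by `u ↦ -u` and the complex conjugation, and each has multiplicity `2 ^ (q/2 - 2)`. -/
def PartB (q : ℕ) : Prop :=
  (∃ a : Fin (q / 2) → ℂ, {b | ∃ hb : b ∈ VSet q, b ≠ 0 ∧ mult b hb ≠ 1} =
    {a, -a, star a, -star a}) ∧
  ∀ (b : Fin (q / 2) → ℂ) (hb : b ∈ VSet q), b ≠ 0 → mult b hb ≠ 1 → mult b hb = 2 ^ (q / 2 - 2)

/-- Part (c): the multiplicity of `V(I')` at `0` is `2 ^ ⌊q/2⌋`. -/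
def PartC (q : ℕ) : Prop := ∃ h0 : (0 : Fin (q / 2) → ℂ) ∈ VSet q, mult 0 h0 = 2 ^ (q / 2)

/-- The conjecture. -/
def Conjecture : Prop :=
  ∀ q, 3 ≤ q → (Odd q → PartA q) ∧ (Even q → 6 < q → PartB q) ∧ PartC q

end

end Pool.Agent.Q235.FL
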