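import Pool.Agent.Q235.FL.Sing

/-!
# The gradient of the discriminant polynomial
-/

open Matrix Polynomial TrivSqZeroExt

namespace Pool.Agent.Q235.FL

noncomputable section

/-- the universal first order deformation -/
def Vu {q : ℕ} (V : Fin q → ℂ) : Fin q → TrivSqZeroExt ℂ (Fin q → ℂ) := fun j =>
  inl (V j) + inr (Pi.single j 1)

/-- the gradient of a coefficient -/
def grad {q : ℕ} (V : Fin q → ℂ) (n : ℕ) : Fin q → ℂ := ((DPol (Vu V)).coeff n).snd

lemma fst_Vu {q : ℕ} (V : Fin q → ℂ) (n : ℕ) :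
    ((DPol (Vu V)).coeff n).fst = (DPol V).coeff n := by
  have h1 : DPol (fun j => (fstHom ℂ ℂ (Fin q → ℂ)).toRingHom (Vu V j)) =
      (DPol (Vu V)).map (fstHom ℂ ℂ (Fin q → ℂ)).toRingHom := DPol_map _ _
  have h2 : (fun j => (fstHom ℂ ℂ (Fin q → ℂ)).toRingHom (Vu V j)) = V := by
    funext j
    show (Vu V j).fst = V j
    rw [Vu]
    simp
  rw [h2] at h1
  rw [h1, coeff_map]
  rfl

/-- the first order deformation in the direction `w` -/
lemma coeff_dir {q : ℕ} (V w : Fin q → ℂ) (n : ℕ) :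
    (DPol (fun j => (inl (V j) + inr (w j) : TrivSqZeroExt ℂ ℂ))).coeff n =
      inl ((DPol V).coeff n) + inr (∑ j, w j * grad V n j) := by
  obtain ⟨f, hf⟩ : ∃ f : (Fin q → ℂ) →ₗ[ℂ] ℂ, ∀ g, f g = ∑ j, w j * g j :=
    ⟨{ toFun := fun g => ∑ j, w j * g j
       map_add' := fun g h => by
        simp only [Pi.add_apply, mul_add, Finset.sum_add_distrib]
       map_smul' := fun c g => by
        simp only [Pi.smul_apply, smul_eq_mul, Finset.mul_sum, RingHom.id_apply]
        exact Finset.sum_congr rfl fun j _ => by ring }, fun g => rfl⟩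
  have h1 : DPol (fun j => (TrivSqZeroExt.map f).toRingHom (Vu V j)) =
      (DPol (Vu V)).map (TrivSqZeroExt.map f).toRingHom := DPol_map _ _
  have h2 : (fun j => (TrivSqZeroExt.map f).toRingHom (Vu V j)) =
      fun j => (inl (V j) + inr (w j) : TrivSqZeroExt ℂ ℂ) := by
    funext j
    show TrivSqZeroExt.map f (Vu V j) = _
    rw [Vu, map_add, map_inl, map_inr, hf]
    congr 2
    rw [Finset.sum_eq_single j]
    · simp
    · intro i _ hi
      rw [Pi.single_eq_of_ne hi, mul_zero]
    · intro h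
      exact absurd (Finset.mem_univ j) h
  rw [h2] at h1
  rw [h1, coeff_map]
  show TrivSqZeroExt.map f _ = _
  ext
  · rw [fst_map, fst_Vu]
    simp
  · rw [snd_map, hf]
    simp [grad]

/-- **the gradient at a periodic potential is periodic** -/
lemma grad_shift {q : ℕ} [NeZero q] (hq : 3 ≤ q) (V : Fin q → ℂ) (c : Fin q)
    (hV : ∀ j, V (j + c) = V j) (n : ℕ) (j : Fin q) : grad V n (j + c) = grad V n j := by
  have h1 : DPol (fun j => (TrivSqZeroExt.map (LinearMap.funLeft ℂ ℂ fun j : Fin q =>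
      j - c)).toRingHom (Vu V j)) = (DPol (Vu V)).map (TrivSqZeroExt.map
      (LinearMap.funLeft ℂ ℂ fun j : Fin q => j - c)).toRingHom := DPol_map _ _
  have h2 : (fun j => (TrivSqZeroExt.map (LinearMap.funLeft ℂ ℂ fun j : Fin q =>
      j - c)).toRingHom (Vu V j)) = fun j => Vu V (j + c) := by
    funext j
    show TrivSqZeroExt.map _ (Vu V j) = _
    rw [Vu, Vu, map_add, map_inl, map_inr, hV]
    congr 2
    funext i
    rw [LinearMap.funLeft_apply]
    by_cases h : i = j + c
    · rw [h, add_sub_cancel_right, Pi.single_eq_same, Pi.single_eq_same]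
    · rw [Pi.single_eq_of_ne h, Pi.single_eq_of_ne]
      intro h'
      exact h (by rw [← h', sub_add_cancel])
  rw [h2, DPol_shift hq (Vu V) c] at h1
  have h3 := congrArg (fun P => (P.coeff n).snd (j + c)) h1
  simp only [coeff_map] at h3
  have h4 : ((TrivSqZeroExt.map (LinearMap.funLeft ℂ ℂ fun j : Fin q => j - c)).toRingHom
      ((DPol (Vu V)).coeff n)).snd (j + c) = grad V n j := by
    show (TrivSqZeroExt.map (LinearMap.funLeft ℂ ℂ fun j : Fin q => j - c)
      ((DPol (Vu V)).coeff n)).snd (j + c) = _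
    rw [snd_map, LinearMap.funLeft_apply, add_sub_cancel_right]
    rfl
  rw [h4] at h3
  exact h3

end

end Pool.Agent.Q235.FL
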