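import Pool.Agent.Q235.FL.Loc

/-!
# Lifts of isospectral potentials are singular
-/

open Matrix Polynomial TrivSqZeroExt

namespace Pool.Agent.Q235.FL

noncomputable section

/-- the direction of the deformation -/
def wdir (p q n : ℕ) : ℂ :=
  (if n = 0 then 1 else 0) - (if n = p then 1 else 0) - (if n + 1 = q then 1 else 0) +
    (if n + 1 + p = q then 1 else 0)

lemma wdir_anti (p q n : ℕ) (hn : n < q) : wdir p q (q - 1 - n) = -wdir p q n := by
  have e1 : q - 1 - n = 0 ↔ n + 1 = q := by omega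
  have e2 : q - 1 - n = p ↔ n + 1 + p = q := by omega
  have e3 : q - 1 - n + 1 = q ↔ n = 0 := by omega
  have e4 : q - 1 - n + 1 + p = q ↔ n = p := by omega
  simp only [wdir, e1, e2, e3, e4]
  ring

lemma v_anti {p K : ℕ} (hp : 3 ≤ p) {v : ℕ → ℂ} (hper : ∀ n, v (n + p) = v n)
    (hanti : ∀ n < p, v (p - 1 - n) = -v n) (n : ℕ) (hn : n < K * p) :
    v (K * p - 1 - n) = -v n := by
  have hper' : ∀ n, v (n % p) = v n := fun n => Function.Periodic.map_mod_nat hper n
  have h1 : n / p < K := Nat.div_lt_of_lt_mul (by rwa [mul_comm] at hn)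
  have h2 := Nat.div_add_mod n p
  have h3 := Nat.mod_lt n (show 0 < p by omega)
  obtain ⟨t, ht⟩ : ∃ t, K = n / p + 1 + t := ⟨K - (n / p + 1), by omega⟩
  have h4 : K * p - 1 - n = (p - 1 - n % p) + t * p := by
    have : K * p = p * (n / p) + p + t * p := by
      conv_lhs => rw [ht]
      ring
    omega
  have h5 : ∀ t m, v (m + t * p) = v m := by
    intro t m
    induction t with
    | zero => simp
    | succ t ih => rw [show m + (t + 1) * p = m + t * p + p by ring, hper, ih]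
  rw [h4, h5, hanti _ h3, hper']

lemma wdir_sum {p q : ℕ} [NeZero q] (hp : 0 < p) (hq : 2 * p ≤ q) (g : Fin q → ℂ)
    (hg : ∀ j j' : Fin q, (j : ℕ) + p = j' → g j = g j') :
    ∑ j : Fin q, wdir p q j * g j = 0 := by
  obtain ⟨a0, h0⟩ : ∃ a : Fin q, (a : ℕ) = 0 := ⟨⟨0, by omega⟩, rfl⟩
  obtain ⟨a1, h1⟩ : ∃ a : Fin q, (a : ℕ) = p := ⟨⟨p, by omega⟩, rfl⟩
  obtain ⟨a2, h2⟩ : ∃ a : Fin q, (a : ℕ) + 1 = q := ⟨⟨q - 1, by omega⟩, by simp; omega⟩
  obtain ⟨a3, h3⟩ : ∃ a : Fin q, (a : ℕ) + 1 + p = q := ⟨⟨q - 1 - p, by omega⟩, by simp; omega⟩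
  have hs : ∀ j : Fin q, wdir p q j * g j = (if j = a0 then g j else 0) -
      (if j = a1 then g j else 0) - (if j = a2 then g j else 0) + (if j = a3 then g j else 0) := by
    intro j
    have e0 : j = a0 ↔ (j : ℕ) = 0 := by rw [Fin.ext_iff, h0]
    have e1 : j = a1 ↔ (j : ℕ) = p := by rw [Fin.ext_iff, h1]
    have e2 : j = a2 ↔ (j : ℕ) + 1 = q := by rw [Fin.ext_iff]; omega
    have e3 : j = a3 ↔ (j : ℕ) + 1 + p = q := by rw [Fin.ext_iff]; omega
    simp only [wdir, e0, e1, e2, e3, sub_mul, add_mul, ite_mul, one_mul, zero_mul]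
  simp only [hs, Finset.sum_add_distrib, Finset.sum_sub_distrib, Finset.sum_ite_eq',
    Finset.mem_univ, if_true]
  rw [hg a0 a1 (by omega), hg a3 a2 (by omega)]
  ring

/-- the values of a potential -/
lemma theta_U {p q : ℕ} (v : ℕ → ℂ) (hv : ∀ n < q, v (q - 1 - n) = -v n)
    (θ : MvPolynomial (Fin (q / 2)) ℂ →ₐ[ℂ] TrivSqZeroExt ℂ ℂ)
    (hθ : ∀ i, θ (MvPolynomial.X i) = inl (v i) + inr (wdir p q i)) (j : Fin q) :
    θ (UGen q j) = inl (v j) + inr (wdir p q j) := by
  have hj := j.isLt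
  unfold UGen
  split_ifs with h1 h2
  · exact hθ _
  · rw [map_neg, hθ]
    show -(inl (v (q - 1 - j)) + inr (wdir p q (q - 1 - j))) = _
    rw [hv j hj, wdir_anti p q j hj, inl_neg, inr_neg, neg_add, neg_neg, neg_neg]
  · have h3 : q - 1 - (j : ℕ) = j := by omega
    have h4 := hv j hj
    have h5 := wdir_anti p q j hj
    rw [h3] at h4 h5
    rw [self_eq_neg] at h4 h5
    rw [h4, h5, map_zero, inl_zero, inr_zero, add_zero]

/-- **Lifts are singular.** -/
theorem sing {p K : ℕ} (hp : 3 ≤ p) (hK : 2 ≤ K) {v : ℕ → ℂ} (hper : ∀ n, v (n + p) = v n)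
    (hanti : ∀ n < p, v (p - 1 - n) = -v n)
    (htr : ∀ x, (mon v x p).trace = (mon (fun _ => 0) x p).trace) {q : ℕ} (hqK : q = K * p) :
    ∃ ha : (fun i : Fin (q / 2) => v i) ∈ VSet q, mult _ ha ≠ 1 := by
  have hq2 : 2 * p ≤ q := by rw [hqK]; exact Nat.mul_le_mul_right p hK
  have hq3 : 3 ≤ q := by omega
  have : NeZero q := ⟨by omega⟩
  have hv : ∀ n < q, v (q - 1 - n) = -v n := by
    intro n hn
    rw [hqK] at hn ⊢
    exact v_anti hp hper hanti n hn
  obtain ⟨θ, hθ⟩ : ∃ θ : MvPolynomial (Fin (q / 2)) ℂ →ₐ[ℂ] TrivSqZeroExt ℂ ℂ,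
      θ = MvPolynomial.aeval fun i : Fin (q / 2) =>
        (inl (v i) + inr (wdir p q i) : TrivSqZeroExt ℂ ℂ) := ⟨_, rfl⟩
  have hX : ∀ i, θ (MvPolynomial.X i) = inl (v i) + inr (wdir p q i) := fun i => by
    rw [hθ, MvPolynomial.aeval_X]
  have hfst : ∀ f, (θ f).fst = MvPolynomial.eval (fun i : Fin (q / 2) => v i) f := by
    intro f
    have : (fstHom ℂ ℂ ℂ).comp θ = MvPolynomial.aeval (fun i : Fin (q / 2) => v i) := by
      refine MvPolynomial.algHom_ext fun i => ?_
      rw [AlgHom.comp_apply, hX, MvPolynomial.aeval_X]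
      simp
    have h1 := congrArg (fun F : MvPolynomial (Fin (q / 2)) ℂ →ₐ[ℂ] ℂ => F f) this
    simp only [AlgHom.comp_apply] at h1
    exact h1
  -- the discriminant polynomial of the deformation
  have hlink : DPol (fun j : Fin q => v j) = DPol (0 : Fin q → ℂ) := by
    rw [DPol_eq, DPol_eq, LMat_eq hq3, LMat_eq hq3]
    have h1 := link hq3 v (fun x => by rw [hqK]; exact tr_lift hper htr K x)
      (one_ne_zero : (1 : ℂ) ≠ 0)
    rw [inv_one] at h1
    rw [h1]
    rfl
  have hgrad : ∀ n (j j' : Fin q), (j : ℕ) + p = j' →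
      grad (fun j : Fin q => v j) n j = grad (fun j : Fin q => v j) n j' := by
    intro n j j' hjj
    have hj' := j'.isLt
    obtain ⟨c, hc⟩ : ∃ c : Fin q, (c : ℕ) = p := ⟨⟨p, by omega⟩, rfl⟩
    have h1 : j' = j + c := by
      rw [Fin.ext_iff, Fin.val_add, hc, hjj, Nat.mod_eq_of_lt hj']
    rw [h1]
    refine (grad_shift hq3 _ c (fun i => ?_) n j).symm
    show v ((i + c : Fin q) : ℕ) = v i
    rw [Fin.val_add, hc]
    have h2 : ∀ m, v (m % q) = v m := by
      refine Function.Periodic.map_mod_nat (fun m => ?_)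
      rw [hqK]
      have h5 : ∀ t m, v (m + t * p) = v m := by
        intro t m
        induction t with
        | zero => simp
        | succ t ih => rw [show m + (t + 1) * p = m + t * p + p by ring, hper, ih]
      exact h5 K m
    rw [h2, hper]
  have hcoef : ∀ n, (DPol (fun j : Fin q => θ (UGen q j))).coeff n =
      inl ((DPol (0 : Fin q → ℂ)).coeff n) := by
    intro n
    have h1 : (fun j : Fin q => θ (UGen q j)) = fun j : Fin q => (inl (v j) +
        inr (wdir p q j) : TrivSqZeroExt ℂ ℂ) :=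
      funext fun j => theta_U v hv θ hX j
    rw [h1, coeff_dir (fun j : Fin q => v j) (fun j : Fin q => wdir p q j) n,
      wdir_sum (by omega) hq2 _ (hgrad n), inr_zero, add_zero, hlink]
  have hcoef0 : ∀ n, (DPol (fun j : Fin q => θ ((0 : Fin q → MvPolynomial _ ℂ) j))).coeff n =
      inl ((DPol (0 : Fin q → ℂ)).coeff n) := by
    intro n
    have h1 : (fun j : Fin q => θ ((0 : Fin q → MvPolynomial _ ℂ) j)) =
        fun j => (inlHom ℂ ℂ) ((0 : Fin q → ℂ) j) := by
      funext j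
      simp
    rw [h1, DPol_map, coeff_map]
    rfl
  have hker : ∀ f ∈ IIdeal q, θ f = 0 := by
    have h1 : IIdeal q ≤ RingHom.ker θ.toRingHom := by
      rw [IIdeal, Ideal.span_le]
      rintro f ⟨k, hk1, hk2, rfl⟩
      show θ (pPol q k) = 0
      rw [pPol, map_mul, coeff_sub, map_sub]
      have h2 := hcoef (q - 2 * k)
      have h3 := hcoef0 (q - 2 * k)
      have h4 : DPol (fun j : Fin q => θ.toRingHom (UGen q j)) = _ := DPol_map _ _
      have h5 : DPol (fun j : Fin q => θ.toRingHom ((0 : Fin q → MvPolynomial _ ℂ) j)) = _ :=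
        DPol_map _ _
      have h6 : θ ((DPol (UGen q)).coeff (q - 2 * k)) =
          (DPol (fun j : Fin q => θ (UGen q j))).coeff (q - 2 * k) := by
        have := congrArg (fun P => P.coeff (q - 2 * k)) h4
        simp only [coeff_map] at this
        exact this.symm
      have h7 : θ ((DPol (0 : Fin q → MvPolynomial (Fin (q / 2)) ℂ)).coeff (q - 2 * k)) =
          (DPol (fun j : Fin q => θ ((0 : Fin q → MvPolynomial _ ℂ) j))).coeff (q - 2 * k) := by
        have := congrArg (fun P => P.coeff (q - 2 * k)) h5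
        simp only [coeff_map] at this
        exact this.symm
      rw [h6, h7, h2, h3, sub_self, mul_zero]
    exact fun f hf => h1 hf
  have hi0 : 0 < q / 2 := by omega
  refine mult_ne_one _ θ hfst hker (MvPolynomial.X ⟨0, hi0⟩ - MvPolynomial.C (v 0)) ?_ ?_
  · rw [hfst, map_sub, MvPolynomial.eval_X, MvPolynomial.eval_C, sub_self]
  · rw [map_sub, hX]
    have h1 : θ (MvPolynomial.C (v 0)) = inl (v 0) := by
      rw [← MvPolynomial.algebraMap_eq, AlgHom.commutes]
      rfl
    rw [h1]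
    have h2 : wdir p q 0 = 1 := by
      unfold wdir
      rw [if_pos rfl, if_neg (by omega), if_neg (by omega), if_neg (by omega)]
      ring
    show (inl (v 0) + inr (wdir p q 0) - inl (v 0) : TrivSqZeroExt ℂ ℂ).snd ≠ 0
    rw [h2]
    simp

end

end Pool.Agent.Q235.FL
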