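import Pool.Agent.Q235.FL.Grad

/-!
# Singular points from first order deformations
-/

open Matrix Polynomial TrivSqZeroExt

namespace Pool.Agent.Q235.FL

noncomputable section

/-- A nontrivial first order deformation inside `V(I')` makes the point singular. -/
lemma mult_ne_one {q : ℕ} (a : Fin (q / 2) → ℂ) (θ : MvPolynomial (Fin (q / 2)) ℂ →ₐ[ℂ]
    TrivSqZeroExt ℂ ℂ) (h1 : ∀ f, (θ f).fst = MvPolynomial.eval a f)
    (h2 : ∀ f ∈ IIdeal q, θ f = 0) (f₀ : MvPolynomial (Fin (q / 2)) ℂ) (h3 : (θ f₀).fst = 0)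
    (h4 : (θ f₀).snd ≠ 0) : ∃ ha : a ∈ VSet q, mult a ha ≠ 1 := by
  have ha : a ∈ VSet q := by
    intro f hf
    rw [← h1, h2 f hf, fst_zero]
  refine ⟨ha, fun hm => ?_⟩
  -- the homomorphism on the quotient
  obtain ⟨θ', hθ'⟩ : ∃ θ' : (MvPolynomial (Fin (q / 2)) ℂ ⧸ IIdeal q) →ₐ[ℂ] TrivSqZeroExt ℂ ℂ,
      ∀ f, θ' (Ideal.Quotient.mk (IIdeal q) f) = θ f :=
    ⟨Ideal.Quotient.liftₐ (IIdeal q) θ h2, fun f => rfl⟩
  have hunit : ∀ y : (RingHom.ker (evalQ a ha)).primeCompl, IsUnit (θ' y) := by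
    rintro ⟨y, hy⟩
    obtain ⟨f, rfl⟩ := Ideal.Quotient.mk_surjective y
    rw [hθ', TrivSqZeroExt.isUnit_iff_isUnit_fst, h1, isUnit_iff_ne_zero]
    intro h0
    exact hy h0
  obtain ⟨Θ, hΘ⟩ : ∃ Θ : Localization.AtPrime (RingHom.ker (evalQ a ha)) →ₐ[ℂ] TrivSqZeroExt ℂ ℂ,
      ∀ y, Θ (algebraMap _ _ y) = θ' y :=
    ⟨IsLocalization.liftAlgHom (M := (RingHom.ker (evalQ a ha)).primeCompl) (f := θ') hunit,
      fun y => IsLocalization.lift_eq _ _⟩
  have hle : Module.rank ℂ (Localization.AtPrime (RingHom.ker (evalQ a ha))) ≤ 1 := hm.le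
  have hli : LinearIndependent ℂ (Θ.toLinearMap ∘ ![1, algebraMap _ _
      (Ideal.Quotient.mk (IIdeal q) f₀)]) := by
    have e : Θ.toLinearMap ∘ ![1, algebraMap _ _ (Ideal.Quotient.mk (IIdeal q) f₀)] =
        ![1, θ f₀] := by
      funext i
      fin_cases i
      · exact map_one Θ
      · exact (hΘ _).trans (hθ' f₀)
    rw [e, LinearIndependent.pair_iff]
    intro s t hst
    have e1 := congrArg TrivSqZeroExt.fst hst
    have e2 := congrArg TrivSqZeroExt.snd hst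
    rw [fst_add, fst_smul, fst_smul, fst_one, h3, smul_zero, add_zero, fst_zero, smul_eq_mul,
      mul_one] at e1
    rw [snd_add, snd_smul, snd_smul, snd_one, smul_zero, zero_add, snd_zero, smul_eq_mul] at e2
    exact ⟨e1, (mul_eq_zero.1 e2).resolve_right h4⟩
  have hli' := LinearIndependent.of_comp _ hli
  have h5 := hli'.cardinal_le_rank
  have h6 := h5.trans hle
  rw [Cardinal.mk_fin] at h6
  have h7 : (2 : ℕ) ≤ 1 := by exact_mod_cast h6
  omega

end

end Pool.Agent.Q235.FL
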