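import Pool.Agent.Q235.FL.Link

/-!
# Periodic potentials and the trace
-/

open Matrix Polynomial

namespace Pool.Agent.Q235.FL

noncomputable section

lemma mon_add_period {R : Type*} [CommRing R] (v : ℕ → R) (x : R) (p : ℕ)
    (hv : ∀ n, v (n + p) = v n) (n : ℕ) : mon v x (n + p) = mon v x n * mon v x p := by
  induction n with
  | zero => simp [mon]
  | succ n ih => rw [show n + 1 + p = n + p + 1 by ring, mon, ih, mon, hv, Matrix.mul_assoc]

lemma mon_mul {R : Type*} [CommRing R] (v : ℕ → R) (x : R) (p : ℕ)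
    (hv : ∀ n, v (n + p) = v n) (k : ℕ) : mon v x (k * p) = mon v x p ^ k := by
  induction k with
  | zero => simp [mon]
  | succ k ih => rw [add_mul, one_mul, mon_add_period v x p hv, ih, pow_succ]

lemma sq_eq {R : Type*} [CommRing R] (M : Matrix (Fin 2) (Fin 2) R) (hM : M.det = 1) :
    M * M = M.trace • M - 1 := by
  rw [det_fin_two] at hM
  rw [trace_fin_two]
  ext i j
  fin_cases i <;> fin_cases j
  · simp [Matrix.mul_apply, Fin.sum_univ_two]
    linear_combination -hM
  · simp [Matrix.mul_apply, Fin.sum_univ_two]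
    ring
  · simp [Matrix.mul_apply, Fin.sum_univ_two]
    ring
  · simp [Matrix.mul_apply, Fin.sum_univ_two]
    linear_combination -hM

lemma tr_rec {R : Type*} [CommRing R] (M : Matrix (Fin 2) (Fin 2) R) (hM : M.det = 1) (k : ℕ) :
    (M ^ (k + 2)).trace = M.trace * (M ^ (k + 1)).trace - (M ^ k).trace := by
  rw [pow_add, pow_two, sq_eq M hM, Matrix.mul_sub, mul_one, trace_sub, Matrix.mul_smul,
    trace_smul, ← pow_succ, smul_eq_mul]

lemma tr_pow {R : Type*} [CommRing R] (M N : Matrix (Fin 2) (Fin 2) R) (hM : M.det = 1)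
    (hN : N.det = 1) (h : M.trace = N.trace) (k : ℕ) : (M ^ k).trace = (N ^ k).trace := by
  have : ∀ k, (M ^ k).trace = (N ^ k).trace ∧ (M ^ (k + 1)).trace = (N ^ (k + 1)).trace := by
    intro k
    induction k with
    | zero => exact ⟨by rw [pow_zero, pow_zero], by rw [zero_add, pow_one, pow_one, h]⟩
    | succ k ih => exact ⟨ih.2, by rw [tr_rec M hM, tr_rec N hN, ih.1, ih.2, h]⟩
  exact (this k).1

lemma tr_lift {v : ℕ → ℂ} {p : ℕ} (hv : ∀ n, v (n + p) = v n)
    (h : ∀ x, (mon v x p).trace = (mon (fun _ => 0) x p).trace) (k : ℕ) (x : ℂ) :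
    (mon v x (k * p)).trace = (mon (fun _ => 0) x (k * p)).trace := by
  rw [mon_mul v x p hv, mon_mul (fun _ => (0 : ℂ)) x p (fun _ => rfl)]
  exact tr_pow _ _ (mon_det _ _ _) (mon_det _ _ _) (h x) k

/-- the potential of period five -/
def v5 (a : ℂ) (n : ℕ) : ℂ :=
  if n % 5 = 0 then a else if n % 5 = 1 then Complex.I * a else if n % 5 = 3 then
    -(Complex.I * a) else if n % 5 = 4 then -a else 0

lemma v5_per (a : ℂ) (n : ℕ) : v5 a (n + 5) = v5 a n := by
  unfold v5
  rw [Nat.add_mod_right]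

lemma v5_anti (a : ℂ) (n : ℕ) (hn : n < 5) : v5 a (5 - 1 - n) = -v5 a n := by
  interval_cases n <;> simp [v5]

lemma v5_tr {a : ℂ} (ha : a ^ 2 = 1 - 2 * Complex.I) (x : ℂ) :
    (mon (v5 a) x 5).trace = (mon (fun _ => 0) x 5).trace := by
  have e0 : v5 a 0 = a := by simp [v5]
  have e1 : v5 a 1 = Complex.I * a := by simp [v5]
  have e2 : v5 a 2 = 0 := by simp [v5]
  have e3 : v5 a 3 = -(Complex.I * a) := by simp [v5]
  have e4 : v5 a 4 = -a := by simp [v5]
  have hI : Complex.I ^ 2 = -1 := Complex.I_sq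
  have h1 : (mon (v5 a) x 5).trace - (mon (fun _ => 0) x 5).trace =
      -(a ^ 2 + (Complex.I * a) ^ 2) * x ^ 3 + (a ^ 2 * (Complex.I * a) ^ 2 -
        2 * a * (Complex.I * a) + 2 * a ^ 2 + (Complex.I * a) ^ 2) * x := by
    rw [trace_fin_two, trace_fin_two]
    simp only [mon, mul_one, Matrix.mul_fin_two, e0, e1, e2, e3, e4]
    simp only [Matrix.of_apply, Matrix.cons_val_zero, Matrix.cons_val_one, Matrix.cons_val',
      Matrix.cons_val_fin_one]
    ring
  refine sub_eq_zero.1 (h1.trans ?_)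
  linear_combination (-a ^ 2 * x ^ 3 + a ^ 4 * x + a ^ 2 * x) * hI - a ^ 2 * x * ha

/-- the potential of period four -/
def v4 (n : ℕ) : ℂ :=
  if n % 4 = 0 then 1 - Complex.I else if n % 4 = 1 then 1 + Complex.I else if n % 4 = 2 then
    -(1 + Complex.I) else -(1 - Complex.I)

lemma v4_per (n : ℕ) : v4 (n + 4) = v4 n := by
  unfold v4
  rw [Nat.add_mod_right]

lemma v4_anti (n : ℕ) (hn : n < 4) : v4 (4 - 1 - n) = -v4 n := by
  interval_cases n <;> simp [v4]

lemma v4_tr (x : ℂ) : (mon v4 x 4).trace = (mon (fun _ => 0) x 4).trace := by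
  have e0 : v4 0 = 1 - Complex.I := by simp [v4]
  have e1 : v4 1 = 1 + Complex.I := by simp [v4]
  have e2 : v4 2 = -(1 + Complex.I) := by simp [v4]
  have e3 : v4 3 = -(1 - Complex.I) := by simp [v4]
  have hI : Complex.I ^ 2 = -1 := Complex.I_sq
  have h1 : ∀ c d : ℂ, v4 0 = c → v4 1 = d → v4 2 = -d → v4 3 = -c →
      (mon v4 x 4).trace - (mon (fun _ => 0) x 4).trace =
      -(c ^ 2 + d ^ 2) * x ^ 2 + (c ^ 2 * d ^ 2 - 2 * c * d + c ^ 2 + d ^ 2) := by
    intro c d h0 h1 h2 h3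
    rw [trace_fin_two, trace_fin_two]
    simp only [mon, mul_one, Matrix.mul_fin_two, h0, h1, h2, h3]
    simp only [Matrix.of_apply, Matrix.cons_val_zero, Matrix.cons_val_one, Matrix.cons_val',
      Matrix.cons_val_fin_one]
    ring
  refine sub_eq_zero.1 ((h1 _ _ e0 e1 e2 e3).trans ?_)
  linear_combination (-2 * x ^ 2 + Complex.I ^ 2 + 1 ) * hI

end

end Pool.Agent.Q235.FL
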