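import Pool.Agent.Q235.FL.Def
import Pool.Agent.Q235.FL.Per

/-!
# The lifted potentials are singular points
-/

open Matrix Polynomial

namespace Pool.Agent.Q235.FL

noncomputable section

lemma LMat_eq {R : Type*} [CommRing R] {q : ℕ} (hq : 3 ≤ q) (V : Fin q → R) :
    LMat V = Lz q V 1 1 := by
  funext i j
  have hi := i.isLt
  have hj := j.isLt
  unfold LMat Lz
  simp only [Fin.ext_iff]
  split_ifs <;> first | (exfalso; omega) | simp

lemma DPol_eq {R : Type*} [CommRing R] {q : ℕ} (V : Fin q → R) :
    DPol V = (-1) ^ q * (LMat V).charpoly := by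
  have h : (LMat V).map C - (X : R[X]) • (1 : Matrix (Fin q) (Fin q) R[X]) =
      -charmatrix (LMat V) := by
    rw [charmatrix, neg_sub]
    congr 1
    rw [scalar_apply, smul_one_eq_diagonal]
  rw [DPol, h, det_neg, Fintype.card_fin, charpoly]

lemma LMat_map {R S : Type*} [CommRing R] [CommRing S] (f : R →+* S) {q : ℕ} (V : Fin q → R) :
    LMat (fun i => f (V i)) = (LMat V).map f := by
  funext i j
  rw [map_apply, LMat, LMat]
  split_ifs <;> simp

lemma DPol_map {R S : Type*} [CommRing R] [CommRing S] (f : R →+* S) {q : ℕ} (V : Fin q → R) :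
    DPol (fun i => f (V i)) = (DPol V).map f := by
  rw [DPol_eq, DPol_eq, Polynomial.map_mul, LMat_map, charpoly_map]
  simp

/-- cyclic invariance -/
lemma DPol_shift {R : Type*} [CommRing R] {q : ℕ} [NeZero q] (hq : 3 ≤ q) (V : Fin q → R)
    (c : Fin q) : DPol (fun i => V (i + c)) = DPol V := by
  have h : LMat (fun i => V (i + c)) = (LMat V).submatrix (Equiv.addRight c) (Equiv.addRight c) := by
    have hcyc : ∀ (W : Fin q → R) (i j : Fin q), LMat W i j = if i = j then W i else
        if i + 1 = j ∨ j + 1 = i then 1 else 0 := by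
      intro W i j
      unfold LMat
      have hi := i.isLt
      have hj := j.isLt
      have key : ∀ i j : Fin q, i + 1 = j ↔ ((i : ℕ) + 1 = j ∨ ((j : ℕ) = 0 ∧ (i : ℕ) + 1 = q)) := by
        intro i j
        have hi := i.isLt
        have hj := j.isLt
        rw [Fin.ext_iff, Fin.val_add, Fin.val_one', Nat.add_mod_mod]
        by_cases h : (i : ℕ) + 1 = q
        · rw [h, Nat.mod_self]
          omega
        · rw [Nat.mod_eq_of_lt (by omega)]
          omega
      simp only [key i j, key j i]
      by_cases h : i = j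
      · rw [if_pos h, if_pos h]
      · rw [if_neg h, if_neg h]
        refine if_congr ?_ rfl rfl
        omega
    funext i j
    rw [submatrix_apply, hcyc, hcyc]
    simp only [Equiv.coe_addRight, add_left_inj]
    refine if_congr Iff.rfl rfl (if_congr ?_ rfl rfl)
    have e1 : i + c + 1 = j + c ↔ i + 1 = j := by
      rw [add_right_comm, add_left_inj]
    have e2 : j + c + 1 = i + c ↔ j + 1 = i := by
      rw [add_right_comm, add_left_inj]
    rw [e1, e2]
  rw [DPol_eq, DPol_eq, h]
  congr 1
  have := charpoly_reindex (Equiv.addRight c).symm (LMat V)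
  rw [← this]
  rfl

end

end Pool.Agent.Q235.FL
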